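import Pool.Agent.Helper264.QRatio

/-!
# Denominators in the ratio `₂φ₁(aq,b;cq;q,z) / ₂φ₁(a,b;c;q,z)`

Same method as for the ratio in which both upper parameters are shifted, with a system of two
recursions in place of a single Riccati equation.
-/

open Finset Pool.Agent.Helper264.QRatio

namespace Pool.Agent.Results.MP_89b4a2_co.Denominators

/-- The coefficients `γ'_n` of `₂φ₁(aq,b;cq;q,z) / ₂φ₁(a,b;c;q,z)`. -/
noncomputable def gam (n : ℕ) : Kf :=
  PowerSeries.coeff n (phi (va * vq) vb (vc * vq) vq * (phi va vb vc vq)⁻¹)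

/-- The denominators `D_n = ∏_{k=0}^n (1 - c q^k)^⌊(n+1)/(k+1)⌋`. -/
noncomputable def D (n : ℕ) : Kf := ∏ k ∈ range (n + 1), (1 - vc * vq ^ k) ^ ((n + 1) / (k + 1))

/-- **Main result.** `D_n γ'_n = (1 - c) P` for a polynomial `P` in `a, b, c, q` with integer
coefficients. -/
theorem result (n : ℕ) : ∃ P : MvPolynomial (Fin 4) ℤ,
    D n * gam n = (1 - vc) * algebraMap (MvPolynomial (Fin 4) ℤ) Kf P := by
  have ha : va ∈ (algebraMap R Kf).range := ⟨_, rfl⟩
  have hb : vb ∈ (algebraMap R Kf).range := ⟨_, rfl⟩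
  have hc : vc ∈ (algebraMap R Kf).range := ⟨_, rfl⟩
  have hq : vq ∈ (algebraMap R Kf).range := ⟨_, rfl⟩
  have hL : PowerSeries.coeff n (phi (va * vq) vb (vc * vq) vq * (phi va vb vc vq)⁻¹) * (1 - vc)⁻¹
      ∈ L (algebraMap R Kf).range vc vq hc hq :=
    Subring.mul_mem _ (gamma'_mem ha hb hc hq hc1 hq1 n) (inv_c_mem ha hb hc hq hc1 hq1)
  obtain ⟨P, hP⟩ := main reg hc hq hq1 (phi va vb vc vq) (phi (va * vq) vb (vc * vq) vq) (1 - vc)⁻¹
    (phi_zero _ _ _ _) (phi_mem ha hb hc hq hc1 hq1)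
    (phi_mem' (Subring.mul_mem _ ha hq) hb hc hq hc1 hq1) n hL
  refine ⟨P, ?_⟩
  have hc0 : (1 : Kf) - vc ≠ 0 := by simpa using hc1 0
  rw [hP, D, gam]
  field_simp

end Pool.Agent.Results.MP_89b4a2_co.Denominators
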